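import Pool.Agent.H74.CB.Defs

set_option autoImplicit false

/-!
# [H74 CD Defs] MP_845814_an, general complex lines

For `z` in the ball and a direction `v ≠ 0` put `κ = ⟪z, v⟫`, `β = ‖v‖²`, `δ = β (1 - ‖z‖²) + |κ|² > 0` (`de`), `y = β s + conj κ` (`yy`).
`‖z + s v‖² = ‖z‖² + 2 re (s κ) + β |s|²`, and `|y|² = β² |s|² + 2 β re (s κ) + |κ|²`, so `‖z + s v‖ = 1 ↔ |y|² = δ`, and `‖z + s v‖ < 1 ↔ |y|² < δ`.
A line is GOOD if `|f| = |g| ≠ 0` on its circle `‖z + s v‖ = 1`. For a good line there are `M` and `w ≠ 0` with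
`δ^M f(z + s v) ∑ w_i y^i = g(z + s v) ∑ conj(w_i) δ^i y^(2M-i)` for all `s` with `z + s v` in the closed ball (module `Ker`), a real linear system in `w` whose
coefficients (`cf`) are analytic along real lines in `z` when `v = L z + b` (`L` complex linear). THEOREM (`Final`): if for some `L`, `b` the set of `z` in the ball with
`v = L z + b ≠ 0` and a good line has positive volume, then `f = c g`.
-/

namespace Pool.Agent.H74.CD

open MeasureTheory Metric Pool.Agent.H74.CB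

/-- `δ` -/
noncomputable def de {n : ℕ} (z v : V n) : ℝ := ‖v‖ ^ 2 * (1 - ‖z‖ ^ 2) + ‖inner ℂ z v‖ ^ 2

/-- `y` -/
noncomputable def yy {n : ℕ} (z v : V n) (s : ℂ) : ℂ :=
  ((‖v‖ ^ 2 : ℝ) : ℂ) * s + (starRingEnd ℂ) (inner ℂ z v)

/-- the terms with `f` -/
noncomputable def cp {n : ℕ} (M : ℕ) (f : V n → ℂ) (z v : V n) (s : ℂ) (i : ℕ) : ℂ :=
  (de z v : ℂ) ^ M * f (z + s • v) * yy z v s ^ i

/-- the terms with `g` -/
noncomputable def cq {n : ℕ} (M : ℕ) (g : V n → ℂ) (z v : V n) (s : ℂ) (i : ℕ) : ℂ :=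
  g (z + s • v) * ((de z v : ℂ) ^ i * yy z v s ^ (2 * M - i))

/-- coefficients of the real linear system: `w i = x (i, 0) + I * x (i, 1)` -/
noncomputable def cf {n : ℕ} (M : ℕ) (f g : V n → ℂ) (z v : V n) (s : ℂ)
    (α : Fin (2 * M + 1) × Fin 2) : ℂ :=
  if α.2 = 0 then cp M f z v s α.1 - cq M g z v s α.1
  else Complex.I * (cp M f z v s α.1 + cq M g z v s α.1)

/-- good lines: `|f| = |g| ≠ 0` on the circle in which the line meets the sphere -/
def Good {n : ℕ} (f g : V n → ℂ) (z v : V n) : Prop :=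
  ∀ s : ℂ, ‖z + s • v‖ = 1 → ‖f (z + s • v)‖ = ‖g (z + s • v)‖ ∧ f (z + s • v) ≠ 0

end Pool.Agent.H74.CD
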