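import Pool.Agent.H74.CD.Ker

set_option autoImplicit false

/-!
# [H74 CD Eqk] From the real linear system to equal moduli (uses the STATEMENTS `yy_sq`, `de_pos` of `Ker`)

* `eq_of_ker`: `P = ∑ w_i X^i ≠ 0`. The identity `δ^M f(z + s v) P(y) = g(z + s v) ∑ conj(w_i) δ^i y^(2M-i)` holds for `|s| ≤ ε`, hence (both sides are analytic in `s` on the
  open convex set `{s | z + s v ∈ ball 0 1}`, which contains `0`) on this set, and by continuity for `z + s v` in the closed ball (the closure of the disc: `|y|² < δ`, `|y|² ≤ δ`).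
  On the circle `y conj y = δ`, so the right side is `g y^(2M) conj (P(y))` and `|f| = |g|` whenever `P(y) ≠ 0`; `P` has finitely many roots and `y` runs over a circle, so by continuity
  `|f| = |g|` on the whole circle. (Model: `cf_sph` in `H74/CB/Ker.lean`.)
-/

namespace Pool.Agent.H74.CD

open MeasureTheory Metric Pool.Agent.H74.CB

variable {n : ℕ}

private theorem psplitE (z : ℂ) {N i j : ℕ} (h : N = i + j) : z ^ N = z ^ i * z ^ j := by
  rw [h, pow_add]

private theorem cf_sumE (M : ℕ) (f g : V n → ℂ) (z v : V n) (s : ℂ)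
    (x : Fin (2 * M + 1) × Fin 2 → ℝ) :
    ∑ α, (x α : ℂ) * cf M f g z v s α =
      ∑ i : Fin (2 * M + 1), (((x (i, 0) : ℂ) + Complex.I * (x (i, 1) : ℂ)) * cp M f z v s i -
        (starRingEnd ℂ) ((x (i, 0) : ℂ) + Complex.I * (x (i, 1) : ℂ)) * cq M g z v s i) := by
  rw [Fintype.sum_prod_type]
  refine Finset.sum_congr rfl fun i _ => ?_
  rw [Fin.sum_univ_two]
  have h0 : cf M f g z v s (i, 0) = cp M f z v s i - cq M g z v s i := by simp [cf]
  have h1 : cf M f g z v s (i, 1) = Complex.I * (cp M f z v s i + cq M g z v s i) := by simp [cf]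
  rw [h0, h1, map_add, map_mul, Complex.conj_ofReal, Complex.conj_ofReal, Complex.conj_I]
  ring

theorem eq_of_ker (M : ℕ) (f g : V n → ℂ)
    (hf : ContinuousOn f (closedBall (0 : V n) 1)) (hf' : DifferentiableOn ℂ f (ball (0 : V n) 1))
    (hg : ContinuousOn g (closedBall (0 : V n) 1)) (hg' : DifferentiableOn ℂ g (ball (0 : V n) 1))
    (z v : V n) (hz : z ∈ ball (0 : V n) 1) (hv : v ≠ 0) (ε : ℝ) (hε : 0 < ε)
    (h : ∃ x : Fin (2 * M + 1) × Fin 2 → ℝ, x ≠ 0 ∧
      ∀ s : closedBall (0 : ℂ) ε, ∑ α, (x α : ℂ) * cf M f g z v s α = 0) (s : ℂ)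
    (hs : ‖z + s • v‖ = 1) : ‖f (z + s • v)‖ = ‖g (z + s • v)‖ := by
  obtain ⟨x, hx0, hx⟩ := h
  have hδ := de_pos z v hz hv
  have hδc : (de z v : ℂ) ≠ 0 := by exact_mod_cast hδ.ne'
  set w : Fin (2 * M + 1) → ℂ := fun i => (x (i, 0) : ℂ) + Complex.I * (x (i, 1) : ℂ) with hw
  set P : Polynomial ℂ := ∑ i : Fin (2 * M + 1), Polynomial.C (w i) * Polynomial.X ^ (i : ℕ) with hP
  have hPc : ∀ i : Fin (2 * M + 1), P.coeff i = w i := by
    intro i
    rw [hP, Polynomial.finsetSum_coeff]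
    simp only [Polynomial.coeff_C_mul, Polynomial.coeff_X_pow]
    rw [Finset.sum_eq_single i]
    · simp
    · intro j _ hj
      have : (i : ℕ) ≠ (j : ℕ) := fun h => hj (Fin.ext h.symm)
      rw [if_neg this, mul_zero]
    · intro hi; exact absurd (Finset.mem_univ i) hi
  have hP0 : P ≠ 0 := by
    intro hP0
    apply hx0
    ext ⟨i, k⟩
    have h1 : w i = 0 := by rw [← hPc i, hP0, Polynomial.coeff_zero]
    have hre : x (i, 0) = 0 := by
      have := congrArg Complex.re h1
      simpa [hw] using this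
    have him : x (i, 1) = 0 := by
      have := congrArg Complex.im h1
      simpa [hw] using this
    fin_cases k
    · exact hre
    · exact him
  have hev : ∀ l : ℂ, P.eval l = ∑ i : Fin (2 * M + 1), w i * l ^ (i : ℕ) := by
    intro l
    rw [hP, Polynomial.eval_finsetSum]
    simp
  set B : ℂ → ℂ := fun y => ∑ i : Fin (2 * M + 1),
    (starRingEnd ℂ) (w i) * ((de z v : ℂ) ^ (i : ℕ) * y ^ (2 * M - (i : ℕ))) with hB
  set F : ℂ → ℂ := fun s => (de z v : ℂ) ^ M * f (z + s • v) * P.eval (yy z v s) -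
    g (z + s • v) * B (yy z v s) with hF
  have hFs : ∀ s, ∑ α, (x α : ℂ) * cf M f g z v s α = F s := by
    intro s
    rw [cf_sumE, hF]
    simp only [hev, hB, cp, cq]
    rw [Finset.mul_sum, Finset.mul_sum, ← Finset.sum_sub_distrib]
    refine Finset.sum_congr rfl fun i _ => ?_
    ring
  -- the open convex set
  set U : Set ℂ := {s | z + s • v ∈ ball (0 : V n) 1} with hU
  have hlin : Continuous fun s : ℂ => z + s • v := by fun_prop
  have hlind : Differentiable ℂ fun s : ℂ => z + s • v := by fun_prop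
  have hUo : IsOpen U := isOpen_ball.preimage hlin
  have hU0 : (0 : ℂ) ∈ U := by rw [hU]; simpa using hz
  have hcomb : ∀ (a b : ℝ) (s t : ℂ), a + b = 1 →
      z + (a • s + b • t) • v = a • (z + s • v) + b • (z + t • v) := by
    intro a b s t hab
    have e1 : a • z + b • z = z := by rw [← add_smul, hab, one_smul]
    rw [smul_add, smul_add, add_smul, smul_assoc, smul_assoc]
    calc z + (a • s • v + b • t • v) = (a • z + b • z) + (a • s • v + b • t • v) := by rw [e1]
      _ = _ := by abel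
  have hUc : Convex ℝ U := by
    intro s hs t ht a b ha hb hab
    rw [hU, Set.mem_ofPred_eq] at *
    rw [hcomb a b s t hab]
    exact (convex_ball (0 : V n) 1) hs ht ha hb hab
  have hfU : DifferentiableOn ℂ (fun s : ℂ => f (z + s • v)) U :=
    hf'.comp hlind.differentiableOn (fun s hs => hs)
  have hgU : DifferentiableOn ℂ (fun s : ℂ => g (z + s • v)) U :=
    hg'.comp hlind.differentiableOn (fun s hs => hs)
  have hyd : Differentiable ℂ (yy z v) := by unfold yy; fun_prop
  have hPd : Differentiable ℂ (fun s => P.eval (yy z v s)) := P.differentiable.comp hyd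
  have hBd : Differentiable ℂ (fun s => B (yy z v s)) := by
    have : Differentiable ℂ B := by rw [hB]; fun_prop
    exact this.comp hyd
  have hFd : DifferentiableOn ℂ F U :=
    ((hfU.const_mul _).mul hPd.differentiableOn).sub (hgU.mul hBd.differentiableOn)
  have hFa : AnalyticOnNhd ℂ F U := hFd.analyticOnNhd hUo
  have hF0 : F =ᶠ[nhds 0] 0 := by
    filter_upwards [closedBall_mem_nhds (0 : ℂ) hε] with s hs
    rw [← hFs]
    exact hx ⟨s, hs⟩
  have hFU : Set.EqOn F 0 U :=
    hFa.eqOn_zero_of_preconnected_of_eventuallyEq_zero hUc.isPreconnected hU0 hF0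
  -- continuity up to the circle
  have hFc : ∀ s : ℂ, ‖z + s • v‖ = 1 → F s = 0 := by
    intro s hs
    have hpath : Filter.Tendsto (fun t : ℝ => ((t : ℂ) * s)) (nhdsWithin 1 (Set.Iio 1)) (nhds s) := by
      have : ContinuousAt (fun t : ℝ => ((t : ℂ) * s)) 1 := by fun_prop
      have h1 := this.tendsto
      simp only [Complex.ofReal_one, one_mul] at h1
      exact h1.mono_left nhdsWithin_le_nhds
    have hin : ∀ᶠ t : ℝ in nhdsWithin 1 (Set.Iio 1), ((t : ℂ) * s) ∈ U := by
      have : Set.Ioo (0 : ℝ) 1 ∈ nhdsWithin (1 : ℝ) (Set.Iio 1) := Ioo_mem_nhdsLT one_pos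
      filter_upwards [this] with t ht
      rw [hU, Set.mem_ofPred_eq, mem_ball_zero_iff]
      have e1 : z + ((t : ℂ) * s) • v = (1 - t) • (z + (0 : ℂ) • v) + t • (z + s • v) := by
        rw [← hcomb (1 - t) t 0 s (by ring)]
        congr 2
        rw [smul_zero, zero_add, Complex.real_smul]
      rw [e1, zero_smul, add_zero]
      have hzn : ‖z‖ < 1 := mem_ball_zero_iff.1 hz
      calc ‖(1 - t) • z + t • (z + s • v)‖ ≤ ‖(1 - t) • z‖ + ‖t • (z + s • v)‖ := norm_add_le _ _
        _ = (1 - t) * ‖z‖ + t := by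
            rw [norm_smul, norm_smul, hs, mul_one, Real.norm_eq_abs, Real.norm_eq_abs,
              abs_of_pos ht.1, abs_of_pos (by linarith [ht.2])]
        _ < 1 := by nlinarith [ht.1, ht.2]
    have hsm : z + s • v ∈ closedBall (0 : V n) 1 := by rw [mem_closedBall_zero_iff, hs]
    have hlim : Filter.Tendsto (fun t : ℝ => z + ((t : ℂ) * s) • v) (nhdsWithin 1 (Set.Iio 1))
        (nhdsWithin (z + s • v) (closedBall (0 : V n) 1)) := by
      rw [tendsto_nhdsWithin_iff]
      refine ⟨(hlin.tendsto s).comp hpath, ?_⟩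
      filter_upwards [hin] with t ht
      exact ball_subset_closedBall ht
    have hA := (hf _ hsm).tendsto.comp hlim
    have hC := (hg _ hsm).tendsto.comp hlim
    have hD := (hPd.continuous.tendsto s).comp hpath
    have hE := (hBd.continuous.tendsto s).comp hpath
    have hG : Filter.Tendsto (fun t : ℝ => F ((t : ℂ) * s)) (nhdsWithin 1 (Set.Iio 1)) (nhds (F s)) :=
      ((hA.const_mul _).mul hD).sub (hC.mul hE)
    refine tendsto_nhds_unique (hG.congr' ?_) tendsto_const_nhds
    filter_upwards [hin] with t ht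
    exact hFU ht
  -- equal moduli where `P` does not vanish
  have hcirc : ∀ s : ℂ, ‖z + s • v‖ = 1 → P.eval (yy z v s) ≠ 0 → ‖f (z + s • v)‖ = ‖g (z + s • v)‖ := by
    intro s hs hPs
    have h0 := hFc s hs
    have hy2 : ‖yy z v s‖ ^ 2 = de z v := by rw [yy_sq, hs]; ring
    have hyc : yy z v s * (starRingEnd ℂ) (yy z v s) = (de z v : ℂ) := by
      rw [Complex.mul_conj, Complex.normSq_eq_norm_sq, hy2]
    have hQ : B (yy z v s) = yy z v s ^ (2 * M) * (starRingEnd ℂ) (P.eval (yy z v s)) := by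
      rw [hev, map_sum, Finset.mul_sum, hB]
      refine Finset.sum_congr rfl fun i _ => ?_
      rw [map_mul, map_pow]
      obtain ⟨j, hj⟩ : ∃ j, 2 * M = (i : ℕ) + j := ⟨2 * M - i, by have := i.2; omega⟩
      have hj2 : 2 * M - (i : ℕ) = j := by omega
      rw [hj2, psplitE _ hj, ← hyc, mul_pow]
      ring
    have h2 : (de z v : ℂ) ^ M * f (z + s • v) * P.eval (yy z v s) =
        g (z + s • v) * (yy z v s ^ (2 * M) * (starRingEnd ℂ) (P.eval (yy z v s))) := by
      rw [← hQ]
      exact sub_eq_zero.1 h0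
    have h3 := congrArg norm h2
    have h4 : ‖yy z v s‖ ^ (2 * M) = de z v ^ M := by rw [pow_mul, hy2]
    rw [norm_mul, norm_mul, norm_mul, norm_mul, norm_pow, norm_pow, h4, RCLike.norm_conj, Complex.norm_real,
      Real.norm_eq_abs, abs_of_pos hδ] at h3
    have hPn : ‖P.eval (yy z v s)‖ ≠ 0 := norm_ne_zero_iff.mpr hPs
    have hdn : de z v ^ M ≠ 0 := pow_ne_zero _ hδ.ne'
    have h5 : (de z v ^ M * ‖P.eval (yy z v s)‖) * ‖f (z + s • v)‖ =
        (de z v ^ M * ‖P.eval (yy z v s)‖) * ‖g (z + s • v)‖ := by linarith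
    exact mul_left_cancel₀ (mul_ne_zero hdn hPn) h5
  -- moving along the circle
  have hb0 : 0 < ‖v‖ ^ 2 := by
    have := norm_pos_iff.2 hv
    positivity
  have hbc : ((‖v‖ ^ 2 : ℝ) : ℂ) ≠ 0 := by exact_mod_cast hb0.ne'
  have hy2 : ‖yy z v s‖ ^ 2 = de z v := by rw [yy_sq, hs]; ring
  have hyne : yy z v s ≠ 0 := by
    intro hy0
    rw [hy0, norm_zero] at hy2
    simp at hy2
    exact hδ.ne hy2
  set S : ℝ → ℂ := fun θ => (yy z v s * Complex.exp ((θ : ℂ) * Complex.I) -
    (starRingEnd ℂ) (inner ℂ z v)) / ((‖v‖ ^ 2 : ℝ) : ℂ) with hS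
  have hyS : ∀ θ, yy z v (S θ) = yy z v s * Complex.exp ((θ : ℂ) * Complex.I) := by
    intro θ
    have e1 : yy z v (S θ) = ((‖v‖ ^ 2 : ℝ) : ℂ) * S θ + (starRingEnd ℂ) (inner ℂ z v) := rfl
    rw [e1, hS]
    field_simp
    ring
  have hS0 : S 0 = s := by
    have e1 : yy z v s = ((‖v‖ ^ 2 : ℝ) : ℂ) * s + (starRingEnd ℂ) (inner ℂ z v) := rfl
    rw [hS]
    simp only [Complex.ofReal_zero, zero_mul, Complex.exp_zero, mul_one]
    rw [e1, add_sub_cancel_right, mul_div_cancel_left₀ _ hbc]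
  have hSn : ∀ θ, ‖z + S θ • v‖ = 1 := by
    intro θ
    have e1 := yy_sq z v (S θ)
    rw [hyS, norm_mul, Complex.norm_exp_ofReal_mul_I, mul_one, hy2] at e1
    have e2 : ‖v‖ ^ 2 * (‖z + S θ • v‖ ^ 2 - 1) = 0 := by linarith
    rcases mul_eq_zero.1 e2 with e3 | e3
    · exact absurd e3 hb0.ne'
    · exact (pow_eq_one_iff_of_nonneg (norm_nonneg _) two_ne_zero).1 (by linarith)
  have hScont : Continuous S := by rw [hS]; fun_prop
  have hStend : Filter.Tendsto S (nhdsWithin 0 (Set.Ioi 0)) (nhds s) := by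
    have h1 := hScont.tendsto 0
    rw [hS0] at h1
    exact h1.mono_left nhdsWithin_le_nhds
  have hexp : Filter.Tendsto (fun θ : ℝ => yy z v s * Complex.exp ((θ : ℂ) * Complex.I)) (nhdsWithin 0 (Set.Ioi 0))
      (nhds (yy z v s)) := by
    have : ContinuousAt (fun θ : ℝ => yy z v s * Complex.exp ((θ : ℂ) * Complex.I)) 0 := by fun_prop
    have h := this.tendsto
    simp only [Complex.ofReal_zero, zero_mul, Complex.exp_zero, mul_one] at h
    exact h.mono_left nhdsWithin_le_nhds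
  have hPe : ∀ᶠ θ : ℝ in nhdsWithin 0 (Set.Ioi 0), P.eval (yy z v (S θ)) ≠ 0 := by
    have hfin : (P.roots.toFinset.erase (yy z v s) : Set ℂ).Finite := Finset.finite_toSet _
    have h1 : ∀ᶠ θ : ℝ in nhdsWithin 0 (Set.Ioi 0),
        yy z v s * Complex.exp ((θ : ℂ) * Complex.I) ∉ (P.roots.toFinset.erase (yy z v s) : Set ℂ) := by
      have hopen : IsOpen ((P.roots.toFinset.erase (yy z v s) : Set ℂ)ᶜ) := hfin.isClosed.isOpen_compl
      have hmem : yy z v s ∈ ((P.roots.toFinset.erase (yy z v s) : Set ℂ)ᶜ) := by simp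
      exact hexp.eventually (hopen.mem_nhds hmem)
    have h2 : ∀ᶠ θ : ℝ in nhdsWithin 0 (Set.Ioi 0),
        yy z v s * Complex.exp ((θ : ℂ) * Complex.I) ≠ yy z v s := by
      have : Set.Ioo (0 : ℝ) 1 ∈ nhdsWithin (0 : ℝ) (Set.Ioi 0) := Ioo_mem_nhdsGT one_pos
      filter_upwards [this] with θ hθ heq
      have h3 : Complex.exp ((θ : ℂ) * Complex.I) = 1 := by
        have h4 : yy z v s * Complex.exp ((θ : ℂ) * Complex.I) = yy z v s * 1 := by rw [heq, mul_one]
        exact mul_left_cancel₀ hyne h4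
      have him := congrArg Complex.im h3
      rw [Complex.exp_ofReal_mul_I_im, Complex.one_im] at him
      exact (Real.sin_pos_of_pos_of_lt_pi hθ.1 (hθ.2.trans (by linarith [Real.pi_gt_three]))).ne' him
    filter_upwards [h1, h2] with θ hs1 hs2 hroot
    rw [hyS] at hroot
    apply hs1
    rw [Finset.mem_coe, Finset.mem_erase, Multiset.mem_toFinset, Polynomial.mem_roots hP0]
    exact ⟨hs2, hroot⟩
  have hsm : z + s • v ∈ closedBall (0 : V n) 1 := by rw [mem_closedBall_zero_iff, hs]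
  have hlim : Filter.Tendsto (fun θ : ℝ => z + S θ • v) (nhdsWithin 0 (Set.Ioi 0))
      (nhdsWithin (z + s • v) (closedBall (0 : V n) 1)) := by
    rw [tendsto_nhdsWithin_iff]
    refine ⟨(hlin.tendsto s).comp hStend, Filter.Eventually.of_forall fun θ => ?_⟩
    rw [mem_closedBall_zero_iff, hSn]
  have hA : Filter.Tendsto (fun θ : ℝ => ‖f (z + S θ • v)‖) (nhdsWithin 0 (Set.Ioi 0)) (nhds ‖f (z + s • v)‖) :=
    ((hf _ hsm).tendsto.comp hlim).norm
  have hC : Filter.Tendsto (fun θ : ℝ => ‖g (z + S θ • v)‖) (nhdsWithin 0 (Set.Ioi 0)) (nhds ‖g (z + s • v)‖) :=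
    ((hg _ hsm).tendsto.comp hlim).norm
  refine tendsto_nhds_unique (hA.congr' ?_) hC
  filter_upwards [hPe] with θ hθ
  exact hcirc _ (hSn θ) hθ

end Pool.Agent.H74.CD
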