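import Pool.Agent.H81.CS.Pol

set_option autoImplicit false

/-!
# [H74 CD Idn] The identity theorem by rays on an open convex set

As `Pool.Agent.H81.CS.ident` (file `H81/CS/Pol.lean`) with an open convex set `C` in place of the ball.
-/

namespace Pool.Agent.H74.CD

open MeasureTheory Metric Pool.Agent.H74.CB

variable {n : ℕ}

theorem ident (hn : 1 ≤ n) (C : Set (V n)) (hCo : IsOpen C) (hCc : Convex ℝ C) (D : V n → ℝ)
    (hc : ContinuousOn D C)
    (ha : ∀ a v : V n, ∀ t : ℝ, a + t • v ∈ C → AnalyticAt ℝ (fun s : ℝ => D (a + s • v)) t)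
    (hpos : (volume : Measure (V n)) {w | w ∈ C ∧ D w = 0} ≠ 0) :
    ∀ w ∈ C, D w = 0 := by
  intro a haB
  by_contra hDa
  apply hpos
  have hmeas : MeasurableSet {w | w ∈ C ∧ D w = 0} := by
    have h1 : IsOpen (C ∩ D ⁻¹' {0}ᶜ) :=
      hc.isOpen_inter_preimage hCo isOpen_compl_singleton
    have h2 : {w | w ∈ C ∧ D w = 0} = C \ (C ∩ D ⁻¹' {0}ᶜ) := by
      ext w
      constructor
      · rintro ⟨hw, h0⟩
        exact ⟨hw, fun h => h.2 h0⟩
      · rintro ⟨hw, h0⟩
        refine ⟨hw, ?_⟩
        by_contra h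
        exact h0 ⟨hw, h⟩
    rw [h2]
    exact hCo.measurableSet.diff h1.measurableSet
  refine Pool.Agent.H81.CS.polar_null hn _ hmeas a ?_
  intro v _
  apply measure_null_of_locally_null
  intro t ht
  obtain ⟨_, htB, ht0⟩ := ht
  refine ⟨{t}, ?_, Real.volume_singleton⟩
  set U : Set ℝ := {s : ℝ | a + s • v ∈ C} with hU
  have hUc : IsPreconnected U := by
    apply Convex.isPreconnected
    intro x hx y hy s r hs hr hsr
    have e : a + (s • x + r • y : ℝ) • v = s • (a + x • v) + r • (a + y • v) := by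
      have : a = (s + r : ℝ) • a := by rw [hsr, one_smul]
      nth_rw 1 [this]
      rw [smul_add, smul_add, add_smul, add_smul, smul_assoc, smul_assoc]
      abel
    show a + (s • x + r • y : ℝ) • v ∈ C
    rw [e]
    exact hCc hx hy hs hr hsr
  have hFa : AnalyticOnNhd ℝ (fun s : ℝ => D (a + s • v)) U := fun s hs => ha a v s hs
  have h0U : (0 : ℝ) ∈ U := by
    show a + (0 : ℝ) • v ∈ C
    simpa using haB
  have hne : ∀ᶠ s in nhdsWithin t {t}ᶜ, D (a + s • v) ≠ 0 := by
    by_contra hcon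
    rw [Filter.not_eventually] at hcon
    have hfr : ∃ᶠ s in nhdsWithin t {t}ᶜ, D (a + s • v) = 0 := hcon.mono fun s hs => not_not.1 hs
    have := hFa.eqOn_zero_of_preconnected_of_frequently_eq_zero hUc htB hfr h0U
    apply hDa
    simpa using this
  rw [eventually_nhdsWithin_iff] at hne
  rw [mem_nhdsWithin_iff_eventually]
  filter_upwards [hne] with s hs hsS
  by_contra hst
  exact hs hst hsS.2.2

end Pool.Agent.H74.CD
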