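import Pool.Agent.H74.CD.Defs
import Pool.Agent.H74.CB.Rel

set_option autoImplicit false

/-!
# [H74 CD Ker] Good lines and the real linear system

* `yy_sq`: see `Defs`; `yy_lt`, `yy_eq` follow (`β > 0`).
* `ker_of_good`: `c = -conj κ / β`, `R = √δ / β > 0`; `F(l) = f (z + (c + R l) v)`, `G` the same: for `s = c + R l`: `y = √δ l` (`β c + conj κ = 0`), so `|l| ≤ 1 ↔ z + s v` in the closed ball.
  `H74/CB/Rel.lean`, theorem `rel`, gives `M, u` with `F(l) ∑ u_i l^i = G(l) ∑ conj (u_i) l^(2M-i)` for `|l| ≤ 1`. Put `w_i = u_i / √δ^i` and `x (i,0) = re w_i`, `x (i,1) = im w_i`. For `s` with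
  `z + s v` in the closed ball put `l = y / √δ`: `w_i y^i = u_i l^i`, `conj (w_i) δ^i y^(2M-i) = δ^M conj (u_i) l^(2M-i)` (`√δ^(2i) = δ^i`, `√δ^(2M) = δ^M`).
  (Model: `cf_sum`, `cf_ker` in `H74/CB/Ker.lean`.)
-/

namespace Pool.Agent.H74.CD

open MeasureTheory Metric Pool.Agent.H74.CB

variable {n : ℕ}

theorem yy_sq (z v : V n) (s : ℂ) :
    ‖yy z v s‖ ^ 2 = ‖v‖ ^ 2 * (‖z + s • v‖ ^ 2 - 1) + de z v := by
  have h1 : ‖z + s • v‖ ^ 2 = ‖z‖ ^ 2 + 2 * (s * inner ℂ z v).re + ‖s‖ ^ 2 * ‖v‖ ^ 2 := by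
    rw [norm_add_sq (𝕜 := ℂ), inner_smul_right, norm_smul, mul_pow]
    rfl
  have h2 : ∀ (b : ℝ) (k : ℂ), ‖(b : ℂ) * s + (starRingEnd ℂ) k‖ ^ 2 =
      b ^ 2 * ‖s‖ ^ 2 + 2 * b * (s * k).re + ‖k‖ ^ 2 := by
    intro b k
    rw [Complex.sq_norm, Complex.sq_norm, Complex.sq_norm, Complex.normSq_apply, Complex.normSq_apply,
      Complex.normSq_apply]
    simp only [Complex.add_re, Complex.add_im, Complex.mul_re, Complex.mul_im, Complex.ofReal_re,
      Complex.ofReal_im, Complex.conj_re, Complex.conj_im]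
    ring
  unfold yy
  rw [h2, h1]
  unfold de
  ring

theorem de_pos (z v : V n) (hz : z ∈ ball (0 : V n) 1) (hv : v ≠ 0) : 0 < de z v := by
  unfold de
  rw [mem_ball_zero_iff] at hz
  have h1 : 0 < ‖v‖ ^ 2 := by
    have := norm_pos_iff.2 hv
    positivity
  have h2 : ‖z‖ ^ 2 < 1 := pow_lt_one₀ (norm_nonneg _) hz two_ne_zero
  have h3 : 0 < ‖v‖ ^ 2 * (1 - ‖z‖ ^ 2) := mul_pos h1 (by linarith)
  have h4 : 0 ≤ ‖inner ℂ z v‖ ^ 2 := by positivity
  linarith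

private theorem psplit (z : ℂ) {N i j : ℕ} (h : N = i + j) : z ^ N = z ^ i * z ^ j := by
  rw [h, pow_add]

private theorem cf_sum (M : ℕ) (f g : V n → ℂ) (z v : V n) (s : ℂ)
    (x : Fin (2 * M + 1) × Fin 2 → ℝ) :
    ∑ α, (x α : ℂ) * cf M f g z v s α =
      ∑ i : Fin (2 * M + 1), (((x (i, 0) : ℂ) + Complex.I * (x (i, 1) : ℂ)) * cp M f z v s i -
        (starRingEnd ℂ) ((x (i, 0) : ℂ) + Complex.I * (x (i, 1) : ℂ)) * cq M g z v s i) := by
  rw [Fintype.sum_prod_type]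
  refine Finset.sum_congr rfl fun i _ => ?_
  rw [Fin.sum_univ_two]
  have h0 : cf M f g z v s (i, 0) = cp M f z v s i - cq M g z v s i := by simp [cf]
  have h1 : cf M f g z v s (i, 1) = Complex.I * (cp M f z v s i + cq M g z v s i) := by simp [cf]
  rw [h0, h1, map_add, map_mul, Complex.conj_ofReal, Complex.conj_ofReal, Complex.conj_I]
  ring

theorem ker_of_good (f g : V n → ℂ)
    (hf : ContinuousOn f (closedBall (0 : V n) 1)) (hf' : DifferentiableOn ℂ f (ball (0 : V n) 1))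
    (hg : ContinuousOn g (closedBall (0 : V n) 1)) (hg' : DifferentiableOn ℂ g (ball (0 : V n) 1))
    (z v : V n) (hz : z ∈ ball (0 : V n) 1) (hv : v ≠ 0) (h : Good f g z v) :
    ∃ M : ℕ, ∃ x : Fin (2 * M + 1) × Fin 2 → ℝ, x ≠ 0 ∧
      ∀ s : ℂ, z + s • v ∈ closedBall (0 : V n) 1 → ∑ α, (x α : ℂ) * cf M f g z v s α = 0 := by
  have hδ := de_pos z v hz hv
  obtain ⟨b, hb⟩ : ∃ b : ℝ, b = ‖v‖ ^ 2 := ⟨_, rfl⟩
  have hb0 : 0 < b := by
    rw [hb]
    have := norm_pos_iff.2 hv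
    positivity
  obtain ⟨q, hq⟩ : ∃ q : ℝ, q = √(de z v) := ⟨_, rfl⟩
  have hq0 : 0 < q := by
    rw [hq]
    exact Real.sqrt_pos.2 hδ
  have hqq : q ^ 2 = de z v := by
    rw [hq]
    exact Real.sq_sqrt hδ.le
  have hbc : (b : ℂ) ≠ 0 := by exact_mod_cast hb0.ne'
  have hqc : (q : ℂ) ≠ 0 := by exact_mod_cast hq0.ne'
  have hqqc : (q : ℂ) ^ 2 = (de z v : ℂ) := by
    rw [← hqq]
    push_cast
    rfl
  obtain ⟨c, hc⟩ : ∃ c : ℂ, c = -(starRingEnd ℂ) (inner ℂ z v) / b := ⟨_, rfl⟩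
  obtain ⟨S, hS⟩ : ∃ S : ℂ → ℂ, S = fun l => c + (q : ℂ) / b * l := ⟨_, rfl⟩
  have hy : ∀ l, yy z v (S l) = q * l := by
    intro l
    unfold yy
    rw [← hb, hS, hc]
    field_simp
    ring
  have hSy : ∀ s, S (yy z v s / q) = s := by
    intro s
    rw [hS, hc]
    unfold yy
    rw [← hb]
    field_simp
    ring
  have hn : ∀ l, b * (‖z + S l • v‖ ^ 2 - 1) = de z v * (‖l‖ ^ 2 - 1) := by
    intro l
    have e1 := yy_sq z v (S l)
    rw [hy, norm_mul, mul_pow, Complex.norm_real, Real.norm_eq_abs, sq_abs, hqq, ← hb] at e1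
    linarith
  have hn1 : ∀ l, ‖l‖ ≤ 1 → ‖z + S l • v‖ ≤ 1 := by
    intro l hl
    have e1 := hn l
    have e2 : ‖l‖ ^ 2 ≤ 1 := pow_le_one₀ (norm_nonneg _) hl
    have e3 : b * (‖z + S l • v‖ ^ 2 - 1) ≤ 0 := by
      rw [e1]
      nlinarith
    have e4 : ‖z + S l • v‖ ^ 2 - 1 ≤ 0 := by
      by_contra hcon
      push Not at hcon
      exact absurd e3 (not_le.2 (mul_pos hb0 hcon))
    exact (sq_le_one_iff₀ (norm_nonneg _)).1 (by linarith)
  have hn2 : ∀ l, ‖l‖ < 1 → ‖z + S l • v‖ < 1 := by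
    intro l hl
    have e1 := hn l
    have e2 : ‖l‖ ^ 2 < 1 := pow_lt_one₀ (norm_nonneg _) hl two_ne_zero
    have e3 : b * (‖z + S l • v‖ ^ 2 - 1) < 0 := by
      rw [e1]
      nlinarith
    have e4 : ‖z + S l • v‖ ^ 2 - 1 < 0 := by
      by_contra hcon
      push Not at hcon
      exact absurd e3 (not_lt.2 (mul_nonneg hb0.le hcon))
    exact (sq_lt_one_iff₀ (norm_nonneg _)).1 (by linarith)
  have hn3 : ∀ l, ‖l‖ = 1 → ‖z + S l • v‖ = 1 := by
    intro l hl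
    have e1 := hn l
    rw [hl, one_pow, sub_self, mul_zero] at e1
    rcases mul_eq_zero.1 e1 with e2 | e2
    · exact absurd e2 hb0.ne'
    · exact (pow_eq_one_iff_of_nonneg (norm_nonneg _) two_ne_zero).1 (by linarith)
  have hn4 : ∀ l, ‖z + S l • v‖ ≤ 1 → ‖l‖ ≤ 1 := by
    intro l hl
    have e1 := hn l
    have e2 : ‖z + S l • v‖ ^ 2 ≤ 1 := pow_le_one₀ (norm_nonneg _) hl
    have e3 : de z v * (‖l‖ ^ 2 - 1) ≤ 0 := by
      rw [← e1]
      nlinarith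
    have e4 : ‖l‖ ^ 2 - 1 ≤ 0 := by
      by_contra hcon
      push Not at hcon
      exact absurd e3 (not_le.2 (mul_pos hδ hcon))
    exact (sq_le_one_iff₀ (norm_nonneg _)).1 (by linarith)
  have hScont : Continuous fun l : ℂ => z + S l • v := by
    rw [hS]
    fun_prop
  have hSdiff : Differentiable ℂ fun l : ℂ => z + S l • v := by
    rw [hS]
    fun_prop
  have hmap1 : Set.MapsTo (fun l : ℂ => z + S l • v) (closedBall (0 : ℂ) 1) (closedBall (0 : V n) 1) := by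
    intro l hl
    rw [mem_closedBall_zero_iff] at hl ⊢
    exact hn1 l hl
  have hmap2 : Set.MapsTo (fun l : ℂ => z + S l • v) (ball (0 : ℂ) 1) (ball (0 : V n) 1) := by
    intro l hl
    rw [mem_ball_zero_iff] at hl ⊢
    exact hn2 l hl
  obtain ⟨M, u, ⟨i0, hi0, hui0⟩, hu⟩ := rel (fun l => f (z + S l • v)) (fun l => g (z + S l • v))
    (hf.comp hScont.continuousOn hmap1) (hf'.comp hSdiff.differentiableOn hmap2)
    (hg.comp hScont.continuousOn hmap1) (hg'.comp hSdiff.differentiableOn hmap2)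
    (fun t ht => h (S t) (hn3 t ht))
  obtain ⟨w, hw⟩ : ∃ w : ℕ → ℂ, w = fun i => u i / (q : ℂ) ^ i := ⟨_, rfl⟩
  obtain ⟨x, hx⟩ : ∃ x : Fin (2 * M + 1) × Fin 2 → ℝ,
      x = fun α : Fin (2 * M + 1) × Fin 2 => if α.2 = 0 then (w α.1).re else (w α.1).im := ⟨_, rfl⟩
  have hxw : ∀ i : Fin (2 * M + 1), (x (i, 0) : ℂ) + Complex.I * (x (i, 1) : ℂ) = w i := by
    intro i
    rw [hx]
    simp only [if_true, one_ne_zero, if_false]
    rw [mul_comm Complex.I]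
    exact Complex.re_add_im (w i)
  refine ⟨M, x, ?_, ?_⟩
  · intro hx0
    have e1 := hxw ⟨i0, hi0⟩
    rw [hx0] at e1
    simp only [Pi.zero_apply, Complex.ofReal_zero, mul_zero, add_zero] at e1
    rw [hw] at e1
    exact div_ne_zero hui0 (pow_ne_zero _ hqc) e1.symm
  · intro s hs
    rw [cf_sum]
    obtain ⟨l, hl⟩ : ∃ l : ℂ, l = yy z v s / q := ⟨_, rfl⟩
    have hSl : S l = s := by
      rw [hl]
      exact hSy s
    have hyl : yy z v s = q * l := by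
      rw [hl]
      field_simp
    have hl1 : ‖l‖ ≤ 1 := by
      refine hn4 l ?_
      rw [hSl]
      exact mem_closedBall_zero_iff.1 hs
    have hE := hu l hl1
    simp only [hSl] at hE
    have key : ∀ i : Fin (2 * M + 1),
        (((x (i, 0) : ℂ) + Complex.I * (x (i, 1) : ℂ)) * cp M f z v s i -
        (starRingEnd ℂ) ((x (i, 0) : ℂ) + Complex.I * (x (i, 1) : ℂ)) * cq M g z v s i) =
        (de z v : ℂ) ^ M * (f (z + s • v) * (u i * l ^ (i : ℕ))) -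
        (de z v : ℂ) ^ M * (g (z + s • v) * ((starRingEnd ℂ) (u i) * l ^ (2 * M - (i : ℕ)))) := by
      intro i
      rw [hxw i]
      obtain ⟨j, hj⟩ : ∃ j, 2 * M = (i : ℕ) + j := ⟨2 * M - i, by have := i.2; omega⟩
      have hj2 : 2 * M - (i : ℕ) = j := by omega
      have hqi : (q : ℂ) ^ (i : ℕ) ≠ 0 := pow_ne_zero _ hqc
      have e3 : (q : ℂ) ^ (2 * M) = (q : ℂ) ^ (i : ℕ) * (q : ℂ) ^ j := psplit _ hj
      have e4 : (de z v : ℂ) ^ M = (q : ℂ) ^ (i : ℕ) * (q : ℂ) ^ j := by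
        rw [← hqqc, ← pow_mul, e3]
      have e5 : (de z v : ℂ) ^ (i : ℕ) = (q : ℂ) ^ (i : ℕ) * (q : ℂ) ^ (i : ℕ) := by
        rw [← hqqc, ← pow_mul, two_mul, pow_add]
      unfold cp cq
      rw [hyl, hw, hj2, e4, e5, mul_pow, mul_pow]
      simp only [map_div₀, map_pow, Complex.conj_ofReal]
      field_simp
    rw [Finset.sum_congr rfl fun i _ => key i, Finset.sum_sub_distrib, ← Finset.mul_sum, ← Finset.mul_sum,
      ← Finset.mul_sum, ← Finset.mul_sum, ← mul_sub]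
    rw [Finset.sum_range, Finset.sum_range] at hE
    rw [hE, sub_self, mul_zero]

end Pool.Agent.H74.CD
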