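import Pool.Agent.H74.CD.Defs

set_option autoImplicit false

/-!
# [H74 CD Lin] The coefficient functions along `v = L z + b`

* `cf_ana`: with `z = a + τ h`, `v = (L a + b) + τ L h` (real `τ`): `‖z‖²`, `‖v‖²` and `⟪z, v⟫ = ⟪a, v⟫ + τ ⟪h, v⟫` are polynomials in `τ`, so `de` and `yy` are analytic; `z + s v = (a + s (L a + b)) + τ (h + s L h)`,
  so `τ ↦ f (z + s v)` extends to a differentiable function on the open set of the complex `τ` for which this point is in the ball; it is analytic there
  (`DifferentiableOn.analyticAt`), restrict to `ℝ` (see `H74/CB/Lin.lean`). The hypothesis `ht` says that the point is in the ball for the given real `t`.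
* `cf_cont`: on `C = {z | z ∈ ball, z + s (L z + b) ∈ ball}`.
-/

namespace Pool.Agent.H74.CD

open MeasureTheory Metric Pool.Agent.H74.CB

variable {n : ℕ}

private lemma csm (τ : ℝ) (h : V n) : τ • h = (τ : ℂ) • h := by
  ext i; simp

private lemma inn_ana (a c h k : V n) (t : ℝ) :
    AnalyticAt ℝ (fun τ : ℝ => inner ℂ (a + τ • h) (c + τ • k)) t := by
  have h1 : (fun τ : ℝ => inner ℂ (a + τ • h) (c + τ • k))
      = fun τ : ℝ => inner ℂ a c + Complex.ofRealCLM τ * inner ℂ a k
        + Complex.ofRealCLM τ * inner ℂ h c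
        + Complex.ofRealCLM τ * (Complex.ofRealCLM τ * inner ℂ h k) := by
    funext τ
    rw [csm, csm, inner_add_left, inner_add_right, inner_add_right, inner_smul_left,
      inner_smul_right, inner_smul_left, inner_smul_right, Complex.conj_ofReal,
      Complex.ofRealCLM_apply]
    ring
  rw [h1]
  have h2 : AnalyticAt ℝ (fun τ : ℝ => Complex.ofRealCLM τ) t := Complex.ofRealCLM.analyticAt t
  exact ((analyticAt_const.fun_add (h2.fun_mul analyticAt_const)).fun_add
    (h2.fun_mul analyticAt_const)).fun_add (h2.fun_mul (h2.fun_mul analyticAt_const))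

private lemma f_ana (f : V n → ℂ) (hf : DifferentiableOn ℂ f (ball (0 : V n) 1))
    (p q : V n) (t : ℝ) (ht : p + t • q ∈ ball (0 : V n) 1) :
    AnalyticAt ℝ (fun τ : ℝ => f (p + τ • q)) t := by
  set S : Set ℂ := {τ : ℂ | p + τ • q ∈ ball (0 : V n) 1} with hS
  have hSo : IsOpen S := isOpen_ball.preimage (by fun_prop)
  have hd : DifferentiableOn ℂ (fun τ : ℂ => f (p + τ • q)) S := by
    refine hf.comp (f := fun τ : ℂ => p + τ • q) ?_ ?_
    · exact Differentiable.differentiableOn (by fun_prop)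
    · intro τ hτ
      exact hτ
  have hts : (t : ℂ) ∈ S := by
    rw [hS, Set.mem_ofPred_eq, ← csm]
    exact ht
  have h3 : AnalyticAt ℂ (fun τ : ℂ => f (p + τ • q)) (t : ℂ) :=
    hd.analyticAt (hSo.mem_nhds hts)
  have h4 : AnalyticAt ℝ (fun τ : ℂ => f (p + τ • q)) (Complex.ofRealCLM t) :=
    h3.restrictScalars
  have h5 := h4.comp (Complex.ofRealCLM.analyticAt t)
  have h6 : (fun τ : ℂ => f (p + τ • q)) ∘ Complex.ofRealCLM
      = fun τ : ℝ => f (p + τ • q) := by
    funext τ
    simp only [Function.comp, Complex.ofRealCLM_apply]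
    rw [← csm]
  rw [h6] at h5
  exact h5

private lemma lin_eq (L : V n →L[ℂ] V n) (a b h : V n) (τ : ℝ) :
    L (a + τ • h) + b = (L a + b) + τ • L h := by
  rw [csm, csm, map_add, map_smul]
  abel

private lemma de_eq (z v : V n) :
    ((de z v : ℝ) : ℂ) = inner ℂ v v * (1 - inner ℂ z z) + inner ℂ z v * inner ℂ v z := by
  unfold de
  rw [inner_self_eq_norm_sq_to_K, inner_self_eq_norm_sq_to_K, ← inner_conj_symm v z,
    Complex.mul_conj, Complex.normSq_eq_norm_sq]
  push_cast
  rfl

private lemma yy_eq (z v : V n) (s : ℂ) :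
    yy z v s = inner ℂ v v * s + inner ℂ v z := by
  unfold yy
  rw [inner_self_eq_norm_sq_to_K, inner_conj_symm]
  push_cast
  rfl

theorem cf_ana (L : V n →L[ℂ] V n) (b : V n) (M : ℕ) (f g : V n → ℂ)
    (hf : DifferentiableOn ℂ f (ball (0 : V n) 1)) (hg : DifferentiableOn ℂ g (ball (0 : V n) 1))
    (s : ℂ) (α : Fin (2 * M + 1) × Fin 2) (a h : V n) (t : ℝ)
    (ht : (a + t • h) + s • (L (a + t • h) + b) ∈ ball (0 : V n) 1) :
    AnalyticAt ℝ (fun τ : ℝ => cf M f g (a + τ • h) (L (a + τ • h) + b) s α) t := by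
  have hpt : ∀ τ : ℝ, (a + τ • h) + s • (L (a + τ • h) + b)
      = (a + s • (L a + b)) + τ • (h + s • L h) := by
    intro τ
    rw [lin_eq, csm, csm, csm, smul_add s, smul_add (τ : ℂ), smul_comm s (τ : ℂ)]
    abel
  have hF : AnalyticAt ℝ (fun τ : ℝ => f ((a + τ • h) + s • (L (a + τ • h) + b))) t := by
    simp only [hpt]
    rw [hpt] at ht
    exact f_ana f hf _ _ t ht
  have hG : AnalyticAt ℝ (fun τ : ℝ => g ((a + τ • h) + s • (L (a + τ • h) + b))) t := by
    simp only [hpt]
    rw [hpt] at ht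
    exact f_ana g hg _ _ t ht
  have hvv : AnalyticAt ℝ (fun τ : ℝ =>
      inner ℂ (L (a + τ • h) + b) (L (a + τ • h) + b)) t := by
    simp only [lin_eq]
    exact inn_ana _ _ _ _ t
  have hzz : AnalyticAt ℝ (fun τ : ℝ => inner ℂ (a + τ • h) (a + τ • h)) t := inn_ana _ _ _ _ t
  have hzv : AnalyticAt ℝ (fun τ : ℝ => inner ℂ (a + τ • h) (L (a + τ • h) + b)) t := by
    simp only [lin_eq]
    exact inn_ana _ _ _ _ t
  have hvz : AnalyticAt ℝ (fun τ : ℝ => inner ℂ (L (a + τ • h) + b) (a + τ • h)) t := by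
    simp only [lin_eq]
    exact inn_ana _ _ _ _ t
  have hde : AnalyticAt ℝ (fun τ : ℝ => ((de (a + τ • h) (L (a + τ • h) + b) : ℝ) : ℂ)) t := by
    simp only [de_eq]
    exact (hvv.fun_mul (analyticAt_const.fun_sub hzz)).fun_add (hzv.fun_mul hvz)
  have hyy : AnalyticAt ℝ (fun τ : ℝ => yy (a + τ • h) (L (a + τ • h) + b) s) t := by
    simp only [yy_eq]
    exact (hvv.fun_mul analyticAt_const).fun_add hvz
  have hp : AnalyticAt ℝ (fun τ : ℝ => cp M f (a + τ • h) (L (a + τ • h) + b) s α.1) t := by
    unfold cp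
    exact ((hde.fun_pow M).fun_mul hF).fun_mul (hyy.fun_pow _)
  have hq : AnalyticAt ℝ (fun τ : ℝ => cq M g (a + τ • h) (L (a + τ • h) + b) s α.1) t := by
    unfold cq
    exact hG.fun_mul ((hde.fun_pow _).fun_mul (hyy.fun_pow _))
  by_cases hα : α.2 = 0
  · have : (fun τ : ℝ => cf M f g (a + τ • h) (L (a + τ • h) + b) s α)
        = fun τ : ℝ => cp M f (a + τ • h) (L (a + τ • h) + b) s α.1
          - cq M g (a + τ • h) (L (a + τ • h) + b) s α.1 := by
      funext τ; simp only [cf, hα, if_true]
    rw [this]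
    exact hp.fun_sub hq
  · have : (fun τ : ℝ => cf M f g (a + τ • h) (L (a + τ • h) + b) s α)
        = fun τ : ℝ => Complex.I * (cp M f (a + τ • h) (L (a + τ • h) + b) s α.1
          + cq M g (a + τ • h) (L (a + τ • h) + b) s α.1) := by
      funext τ; simp only [cf, hα, if_false]
    rw [this]
    exact analyticAt_const.fun_mul (hp.fun_add hq)

theorem cf_cont (L : V n →L[ℂ] V n) (b : V n) (M : ℕ) (f g : V n → ℂ)
    (hf : ContinuousOn f (closedBall (0 : V n) 1)) (hg : ContinuousOn g (closedBall (0 : V n) 1))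
    (s : ℂ) (α : Fin (2 * M + 1) × Fin 2) (C : Set (V n))
    (hC : ∀ z ∈ C, z + s • (L z + b) ∈ ball (0 : V n) 1) :
    ContinuousOn (fun z => cf M f g z (L z + b) s α) C := by
  have hm : Set.MapsTo (fun z : V n => z + s • (L z + b)) C (closedBall (0 : V n) 1) :=
    fun z hz => ball_subset_closedBall (hC z hz)
  have hc : ContinuousOn (fun z : V n => z + s • (L z + b)) C := by fun_prop
  have h1 : ContinuousOn (fun z : V n => f (z + s • (L z + b))) C := hf.comp hc hm
  have h2 : ContinuousOn (fun z : V n => g (z + s • (L z + b))) C := hg.comp hc hm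
  have hv : Continuous (fun z : V n => L z + b) := by fun_prop
  have hde : ContinuousOn (fun z : V n => ((de z (L z + b) : ℝ) : ℂ)) C := by
    simp only [de_eq]
    exact (((hv.inner hv).mul (continuous_const.sub (continuous_id.inner continuous_id))).add
      ((continuous_id.inner hv).mul (hv.inner continuous_id))).continuousOn
  have hyy : ContinuousOn (fun z : V n => yy z (L z + b) s) C := by
    simp only [yy_eq]
    exact (((hv.inner hv).mul continuous_const).add (hv.inner continuous_id)).continuousOn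
  have hp : ContinuousOn (fun z : V n => cp M f z (L z + b) s α.1) C := by
    unfold cp
    exact ((hde.pow M).mul h1).mul (hyy.pow _)
  have hq : ContinuousOn (fun z : V n => cq M g z (L z + b) s α.1) C := by
    unfold cq
    exact h2.mul ((hde.pow _).mul (hyy.pow _))
  by_cases hα : α.2 = 0
  · have : (fun z : V n => cf M f g z (L z + b) s α)
        = fun z : V n => cp M f z (L z + b) s α.1 - cq M g z (L z + b) s α.1 := by
      funext τ; simp only [cf, hα, if_true]
    rw [this]
    exact hp.sub hq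
  · have : (fun z : V n => cf M f g z (L z + b) s α)
        = fun z : V n => Complex.I * (cp M f z (L z + b) s α.1 + cq M g z (L z + b) s α.1) := by
      funext τ; simp only [cf, hα, if_false]
    rw [this]
    exact continuousOn_const.mul (hp.add hq)

end Pool.Agent.H74.CD
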