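import Pool.Agent.H81.CS.Cap

set_option autoImplicit false

/-!
# [H74 CD Loc] Equal moduli on a relatively open part of the sphere

The local form of `Pool.Agent.H81.CS.cap_eq` (file `H81/CS/Cap.lean`): if `|f| = |g|` on `U ∩ S`, `U` open, `U ∩ S ≠ ∅`, then `f = c g` on the closed ball.
If `g = 0` on `U ∩ S`, then `f = g = 0` there; by small discs orthogonal to `a ∈ U ∩ S` (all points of the closed disc near `a`, boundary in `U ∩ S`) the maximum principle gives
`f = 0` near `a` in the ball, so `f = 0` in the ball (`eqOn_ball`) and `c = 0`. Otherwise there is `a ∈ U ∩ S` with `g a ≠ 0`, and the proof of `cap` near `a` works as it stands.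
-/

namespace Pool.Agent.H74.CD

open MeasureTheory Metric Set
open Pool.Agent.H81.CS

section
variable {E : Type*} [NormedAddCommGroup E] [InnerProductSpace ℂ E]

/-- maximum principle in a slice, with the equality of moduli only on the slice -/
private theorem slice_le' {f g : E → ℂ} (z v : E) (hv : v ≠ 0) (hz : z ∈ ball (0 : E) 1)
    (hf : ContinuousOn f (closedBall (0 : E) 1)) (hfd : DifferentiableOn ℂ f (ball (0 : E) 1))
    (hg : ContinuousOn g (closedBall (0 : E) 1)) (hgd : DifferentiableOn ℂ g (ball (0 : E) 1))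
    (h0 : ∀ l : ℂ, z + l • v ∈ closedBall (0 : E) 1 → g (z + l • v) ≠ 0)
    (he : ∀ l : ℂ, z + l • v ∈ sphere (0 : E) 1 → ‖f (z + l • v)‖ ≤ ‖g (z + l • v)‖) : ‖f z‖ ≤ ‖g z‖ := by
  set U : Set ℂ := {l : ℂ | z + l • v ∈ ball (0 : E) 1} with hU
  have hline : DifferentiableOn ℂ (fun l : ℂ => z + l • v) U := by fun_prop
  have hd : DiffContOnCl ℂ (fun l : ℂ => f (z + l • v) / g (z + l • v)) U := by
    constructor
    · refine DifferentiableOn.div ?_ ?_ ?_
      · exact hfd.comp hline (fun l hl => hl)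
      · exact hgd.comp hline (fun l hl => hl)
      · intro l hl
        exact h0 l (ball_subset_closedBall hl)
    · refine ContinuousOn.div ?_ ?_ ?_
      · exact hf.comp (continuous_line z v).continuousOn (fun l hl => closure_slice z v hl)
      · exact hg.comp (continuous_line z v).continuousOn (fun l hl => closure_slice z v hl)
      · intro l hl
        exact h0 l (closure_slice z v hl)
  have h := Complex.norm_le_of_forall_mem_frontier_norm_le (isBounded_slice z v hv) hd (C := 1) ?_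
    (z := 0) (subset_closure (by simpa using hz))
  · simp only [zero_smul, add_zero, norm_div] at h
    have hg0 : 0 < ‖g z‖ := norm_pos_iff.2 (by simpa using h0 0 (by simpa using (mem_ball_zero_iff.1 hz).le))
    rwa [div_le_one hg0] at h
  · intro l hl
    have h1 := frontier_slice z v hl
    have h2 := h0 l (sphere_subset_closedBall h1)
    rw [norm_div, div_le_one (norm_pos_iff.2 h2)]
    exact he l h1

/-- small caps -/
private theorem capset (h2 : ∀ p : E, ∃ v : E, v ≠ 0 ∧ inner ℂ p v = 0) {p : E} (hpn : ‖p‖ = 1) {δ : ℝ} (hδ : 0 < δ) :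
    ∃ (v : E) (C : Set E), v ≠ 0 ∧ IsOpen C ∧ IsPreconnected (C ∩ ball (0 : E) 1) ∧
      (∃ a, a ∈ C ∧ a ∈ ball (0 : E) 1) ∧ (∀ z ∈ closedBall (0 : E) 1, z ∈ C → dist z p < δ) ∧
      (∀ z ∈ C, ∀ l : ℂ, z + l • v ∈ C) := by
  obtain ⟨v, hv0, hv⟩ := h2 p
  set ε : ℝ := δ ^ 2 / 4 with hε
  have hεp : 0 < ε := by positivity
  have hnear : ∀ z ∈ closedBall (0 : E) 1, 1 - ε < (inner ℂ p z).re → dist z p < δ := by
    intro z hz hr
    have hz1 : ‖z‖ ≤ 1 := by simpa using hz
    have h := @norm_sub_sq ℂ E _ _ _ z p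
    have e1 : RCLike.re (inner ℂ z p) = (inner ℂ p z).re := inner_re_symm (𝕜 := ℂ) z p
    rw [e1, hpn] at h
    have h3 : ‖z - p‖ ^ 2 < δ ^ 2 := by
      have : ‖z‖ ^ 2 ≤ 1 := by nlinarith [norm_nonneg z]
      nlinarith
    rw [dist_eq_norm]
    exact lt_of_pow_lt_pow_left₀ 2 hδ.le h3
  have hsl : ∀ (z : E) (l : ℂ), inner ℂ p (z + l • v) = inner ℂ p z := by
    intro z l
    rw [inner_add_right, inner_smul_right, hv, mul_zero, add_zero]
  refine ⟨v, {z : E | 1 - ε < (inner ℂ p z).re}, hv0, ?_, ?_, ?_, ?_, ?_⟩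
  · apply isOpen_lt continuous_const
    fun_prop
  · apply Convex.isPreconnected
    refine Convex.inter ?_ (convex_ball _ _)
    intro x hx y hy s t hs ht hst
    have hx : 1 - ε < (inner ℂ p x).re := hx
    have hy : 1 - ε < (inner ℂ p y).re := hy
    show 1 - ε < (inner ℂ p (s • x + t • y)).re
    have e : (inner ℂ p (s • x + t • y)).re = s * (inner ℂ p x).re + t * (inner ℂ p y).re := by
      rw [inner_add_right, RCLike.real_smul_eq_coe_smul (K := ℂ) s x, RCLike.real_smul_eq_coe_smul (K := ℂ) t y,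
        inner_smul_right, inner_smul_right]
      simp
    rw [e]
    rcases eq_or_lt_of_le hs with hs0 | hs0
    · have ht1 : t = 1 := by linarith
      rw [← hs0, ht1]
      linarith
    · have h1 : s * (1 - ε) < s * (inner ℂ p x).re := by nlinarith
      have h2 : t * (1 - ε) ≤ t * (inner ℂ p y).re := by nlinarith
      have h3 : s * (1 - ε) + t * (1 - ε) = 1 - ε := by rw [← add_mul, hst, one_mul]
      linarith
  · set r : ℝ := max 0 (1 - ε / 2) with hr
    have hr1 : r < 1 := by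
      apply max_lt one_pos
      linarith
    have hr0 : 0 ≤ r := le_max_left _ _
    refine ⟨(r : ℂ) • p, ?_, ?_⟩
    · have e1 : (inner ℂ p ((r : ℂ) • p)).re = r := by
        rw [inner_smul_right, inner_self_eq_norm_sq_to_K, hpn]
        simp
      show 1 - ε < (inner ℂ p ((r : ℂ) • p)).re
      rw [e1]
      have := le_max_right 0 (1 - ε / 2)
      linarith
    · rw [mem_ball_zero_iff, norm_smul, hpn, mul_one, Complex.norm_real, Real.norm_eq_abs, abs_of_nonneg hr0]
      exact hr1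
  · intro z hz hzC
    exact hnear z hz hzC
  · intro z hz l
    show 1 - ε < (inner ℂ p (z + l • v)).re
    rw [hsl]
    exact hz

/-- equal moduli on a relatively open part of the sphere -/
private theorem cap_loc' (h2 : ∀ p : E, ∃ v : E, v ≠ 0 ∧ inner ℂ p v = 0) {f g : E → ℂ}
    (hf : ContinuousOn f (closedBall (0 : E) 1)) (hfd : DifferentiableOn ℂ f (ball (0 : E) 1))
    (hg : ContinuousOn g (closedBall (0 : E) 1)) (hgd : DifferentiableOn ℂ g (ball (0 : E) 1))
    (U : Set E) (hU : IsOpen U) (a : E) (haU : a ∈ U) (ha : ‖a‖ = 1)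
    (he : ∀ x ∈ U, ‖x‖ = 1 → ‖f x‖ = ‖g x‖) : ∃ c : ℂ, ∀ z ∈ closedBall (0 : E) 1, f z = c * g z := by
  have hext : ∀ c : ℂ, EqOn f (fun z => c * g z) (ball (0 : E) 1) → ∀ z ∈ closedBall (0 : E) 1, f z = c * g z := by
    intro c hball
    have hcl : EqOn f (fun z => c * g z) (closedBall (0 : E) 1) := by
      refine hball.of_subset_closure hf (hg.const_mul _ |>.congr (fun _ _ => rfl)) ball_subset_closedBall ?_
      rw [closure_ball (0 : E) one_ne_zero]
    exact fun z hz => hcl hz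
  by_cases h0 : ∀ x ∈ U, ‖x‖ = 1 → f x = 0
  · refine ⟨0, hext 0 ?_⟩
    obtain ⟨δ, hδ, hUδ⟩ := Metric.isOpen_iff.1 hU a haU
    obtain ⟨v, C, hv0, hCo, -, ⟨b, hbC, hbb⟩, hnear, hsl⟩ := capset h2 ha hδ
    refine eqOn_ball hfd (hgd.const_mul _) hCo hbC hbb ?_
    intro z hz
    show f z = 0 * g z
    rw [zero_mul, ← norm_le_zero_iff]
    have hd : DiffContOnCl ℂ (fun l : ℂ => f (z + l • v)) {l : ℂ | z + l • v ∈ ball (0 : E) 1} := by
      constructor
      · have hline : DifferentiableOn ℂ (fun l : ℂ => z + l • v) {l : ℂ | z + l • v ∈ ball (0 : E) 1} := by fun_prop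
        exact hfd.comp hline (fun l hl => hl)
      · exact hf.comp (continuous_line z v).continuousOn (fun l hl => closure_slice z v hl)
    have h := Complex.norm_le_of_forall_mem_frontier_norm_le (isBounded_slice z v hv0) hd (C := 0) ?_
      (z := 0) (subset_closure (by simpa using hz.2))
    · simpa using h
    · intro l hl
      have h1 := frontier_slice z v hl
      have h3 : z + l • v ∈ U := hUδ (hnear _ (sphere_subset_closedBall h1) (hsl z hz.1 l))
      rw [h0 _ h3 (by simpa using h1), norm_zero]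
  · push Not at h0
    obtain ⟨p, hpU, hpn, hp0⟩ := h0
    have hpc : p ∈ closedBall (0 : E) 1 := by simp [hpn]
    have hgp : g p ≠ 0 := by
      rw [← norm_ne_zero_iff, ← he p hpU hpn]
      exact norm_ne_zero_iff.2 hp0
    obtain ⟨δ, hδ, hne⟩ : ∃ δ > 0, ∀ z ∈ closedBall (0 : E) 1, dist z p < δ → (f z ≠ 0 ∧ g z ≠ 0) ∧ z ∈ U := by
      have h1 : ∀ᶠ z in nhdsWithin p (closedBall (0 : E) 1), (f z ≠ 0 ∧ g z ≠ 0) ∧ z ∈ U :=
        (((hf p hpc).eventually_ne hp0).and ((hg p hpc).eventually_ne hgp)).and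
          (nhdsWithin_le_nhds (hU.mem_nhds hpU))
      rw [Metric.nhdsWithin_basis_ball.eventually_iff] at h1
      obtain ⟨δ, hδ, h⟩ := h1
      exact ⟨δ, hδ, fun z hz hd => h ⟨hd, hz⟩⟩
    obtain ⟨v, C, hv0, hCo, hCc, ⟨b, hbC, hbb⟩, hnear, hsl⟩ := capset h2 hpn hδ
    have hin : ∀ z ∈ closedBall (0 : E) 1, z ∈ C → (f z ≠ 0 ∧ g z ≠ 0) ∧ z ∈ U :=
      fun z hz hzC => hne z hz (hnear z hz hzC)
    have heq : ∀ z ∈ C ∩ ball (0 : E) 1, ‖f z‖ = ‖g z‖ := by
      intro z hz
      have hs : ∀ l : ℂ, z + l • v ∈ sphere (0 : E) 1 → ‖f (z + l • v)‖ = ‖g (z + l • v)‖ := by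
        intro l hl
        exact he _ (hin _ (sphere_subset_closedBall hl) (hsl z hz.1 l)).2 (by simpa using hl)
      apply le_antisymm
      · refine slice_le' z v hv0 hz.2 hf hfd hg hgd ?_ (fun l hl => (hs l hl).le)
        intro l hl
        exact (hin _ hl (hsl z hz.1 l)).1.2
      · refine slice_le' z v hv0 hz.2 hg hgd hf hfd ?_ (fun l hl => (hs l hl).ge)
        intro l hl
        exact (hin _ hl (hsl z hz.1 l)).1.1
    set q : E → ℂ := fun z => f z / g z with hq
    have hgC : ∀ z ∈ C ∩ ball (0 : E) 1, g z ≠ 0 := fun z hz => (hin _ (ball_subset_closedBall hz.2) hz.1).1.2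
    have hqd : DifferentiableOn ℂ q (C ∩ ball (0 : E) 1) := by
      have h := (hfd.mono (inter_subset_right (s := C))).mul ((hgd.mono (inter_subset_right (s := C))).inv hgC)
      refine h.congr ?_
      intro z hz
      simp [hq, div_eq_mul_inv]
    have hqn : ∀ z ∈ C ∩ ball (0 : E) 1, ‖q z‖ = 1 := by
      intro z hz
      simp only [hq, norm_div]
      rw [heq z hz, div_self (norm_ne_zero_iff.2 (hgC z hz))]
    have hconst := Complex.eqOn_of_isPreconnected_of_isMaxOn_norm hCc (hCo.inter isOpen_ball) hqd ⟨hbC, hbb⟩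
      (by
        intro z hz
        show ‖q z‖ ≤ ‖q b‖
        rw [hqn z hz, hqn b ⟨hbC, hbb⟩])
    refine ⟨q b, hext (q b) ?_⟩
    refine eqOn_ball hfd (hgd.const_mul _) hCo hbC hbb ?_
    intro z hz
    have h1 : q z = q b := hconst hz
    show f z = q b * g z
    rw [← h1]
    simp only [hq]
    rw [div_mul_cancel₀ _ (hgC z hz)]

end

theorem cap_loc {n : ℕ} (hn : 2 ≤ n) {f g : EuclideanSpace ℂ (Fin n) → ℂ}
    (hf : ContinuousOn f (closedBall (0 : EuclideanSpace ℂ (Fin n)) 1))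
    (hfd : DifferentiableOn ℂ f (ball (0 : EuclideanSpace ℂ (Fin n)) 1))
    (hg : ContinuousOn g (closedBall (0 : EuclideanSpace ℂ (Fin n)) 1))
    (hgd : DifferentiableOn ℂ g (ball (0 : EuclideanSpace ℂ (Fin n)) 1))
    (U : Set (EuclideanSpace ℂ (Fin n))) (hU : IsOpen U)
    (a : EuclideanSpace ℂ (Fin n)) (haU : a ∈ U) (ha : ‖a‖ = 1)
    (he : ∀ x ∈ U, ‖x‖ = 1 → ‖f x‖ = ‖g x‖) :
    ∃ c : ℂ, ∀ z ∈ closedBall (0 : EuclideanSpace ℂ (Fin n)) 1, f z = c * g z :=
  cap_loc' (exists_orth hn) hf hfd hg hgd U hU a haU ha he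

end Pool.Agent.H74.CD
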