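import Pool.Agent.H74.CD.Defs

set_option autoImplicit false

/-!
# [H74 CD Opn] The circles of the lines `z + ℂ (L z + b)` cover an open part of the sphere

Let `z0 ∈ C` (open, inside the ball), `v0 = L z0 + b ≠ 0`. The set of `s` with `‖z0 + s v0‖ = 1` is a circle of positive radius (`|y|² = δ`, see `Defs`; or: for each unit `t` there is `r > 0` with
`‖z0 + r t v0‖ = 1`, by the intermediate value theorem), so it is infinite. The map `1 + s L` is invertible except for finitely many `s` (`s ≠ 0` and `-1/s` an eigenvalue of `L`: the determinant of `1 + s L` is a polynomial in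
`s` with value `1` at `0`; or `Module.End` eigenvalues are finitely many), so there is `s0` with `‖z0 + s0 v0‖ = 1` and `T = 1 + s0 L` invertible. For `ζ` near `a = z0 + s0 v0 = T z0 + s0 b` put
`z = T⁻¹ (ζ - s0 b)`: it is near `z0`, so `z ∈ C`, `L z + b ≠ 0`, and `z + s0 (L z + b) = ζ`. `U` = the open set of these `ζ` (preimage of an open set under a continuous map).
-/

namespace Pool.Agent.H74.CD

open MeasureTheory Metric Pool.Agent.H74.CB

variable {n : ℕ}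

private theorem bad_finite (L : V n →L[ℂ] V n) :
    {s : ℂ | ∃ z : V n, z ≠ 0 ∧ z + s • L z = 0}.Finite := by
  let L' : Module.End ℂ (V n) := (L : V n →ₗ[ℂ] V n)
  refine ((Module.End.finite_spectrum L').image (fun μ => -μ⁻¹)).subset ?_
  rintro s ⟨z, hz, hzs⟩
  have hs0 : s ≠ 0 := by
    rintro rfl
    apply hz
    simpa using hzs
  refine ⟨-s⁻¹, ?_, by simp⟩
  rw [← Module.End.hasEigenvalue_iff_mem_spectrum]
  refine Module.End.hasEigenvalue_of_hasEigenvector (x := z) ⟨Module.End.mem_eigenspace_iff.2 ?_, hz⟩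
  have h1 : s • L z = -z := by
    rw [add_comm] at hzs
    exact eq_neg_of_add_eq_zero_left hzs
  calc L' z = s⁻¹ • (s • L z) := by rw [smul_smul, inv_mul_cancel₀ hs0, one_smul]; rfl
    _ = -s⁻¹ • z := by rw [h1]; simp

private theorem circ_infinite (z0 v0 : V n) (hz : ‖z0‖ < 1) (hv : v0 ≠ 0) :
    {s : ℂ | ‖z0 + s • v0‖ = 1}.Infinite := by
  have hvpos : 0 < ‖v0‖ := norm_pos_iff.2 hv
  have key : ∀ y : Set.Ioo (0 : ℝ) ((1 - ‖z0‖) / ‖v0‖), ∃ x : ℝ,
      ‖z0 + ((x : ℂ) + (y : ℝ) * Complex.I) • v0‖ = 1 := by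
    rintro ⟨y, hy0, hy1⟩
    have hcont : Continuous fun x : ℝ => ‖z0 + ((x : ℂ) + (y : ℝ) * Complex.I) • v0‖ := by fun_prop
    have hR : (0 : ℝ) ≤ 2 / ‖v0‖ := by positivity
    have h0 : ‖z0 + (((0 : ℝ) : ℂ) + (y : ℝ) * Complex.I) • v0‖ ≤ 1 := by
      refine (norm_add_le _ _).trans ?_
      rw [norm_smul]
      have e1 : ‖(((0 : ℝ) : ℂ) + (y : ℝ) * Complex.I)‖ = y := by
        rw [Complex.ofReal_zero, zero_add, norm_mul, Complex.norm_I, mul_one, Complex.norm_real,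
          Real.norm_eq_abs, abs_of_pos hy0]
      rw [e1]
      have e2 : y * ‖v0‖ < 1 - ‖z0‖ := by
        rwa [lt_div_iff₀ hvpos] at hy1
      linarith
    have h1 : 1 ≤ ‖z0 + (((2 / ‖v0‖ : ℝ) : ℂ) + (y : ℝ) * Complex.I) • v0‖ := by
      have e1 : ‖(((2 / ‖v0‖ : ℝ) : ℂ) + (y : ℝ) * Complex.I) • v0‖ ≤
          ‖z0 + (((2 / ‖v0‖ : ℝ) : ℂ) + (y : ℝ) * Complex.I) • v0‖ + ‖z0‖ := by
        have := norm_sub_le (z0 + (((2 / ‖v0‖ : ℝ) : ℂ) + (y : ℝ) * Complex.I) • v0) z0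
        rwa [add_sub_cancel_left] at this
      rw [norm_smul] at e1
      have e2 : 2 / ‖v0‖ ≤ ‖(((2 / ‖v0‖ : ℝ) : ℂ) + (y : ℝ) * Complex.I)‖ := by
        have := Complex.abs_re_le_norm (((2 / ‖v0‖ : ℝ) : ℂ) + (y : ℝ) * Complex.I)
        rw [Complex.add_re, Complex.ofReal_re, Complex.re_ofReal_mul, Complex.I_re, mul_zero, add_zero,
          abs_of_nonneg hR] at this
        exact this
      have e3 : 2 / ‖v0‖ * ‖v0‖ = 2 := by field_simp
      have e4 := mul_le_mul_of_nonneg_right e2 hvpos.le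
      rw [e3] at e4
      linarith
    obtain ⟨x, _, hx⟩ := intermediate_value_Icc hR hcont.continuousOn ⟨h0, h1⟩
    exact ⟨x, hx⟩
  choose X hX using key
  have hη : (0 : ℝ) < (1 - ‖z0‖) / ‖v0‖ := div_pos (by linarith) hvpos
  have : Infinite (Set.Ioo (0 : ℝ) ((1 - ‖z0‖) / ‖v0‖)) := Set.infinite_coe_iff.2 (Set.Ioo_infinite hη)
  refine Set.infinite_of_injective_forall_mem
    (f := fun y : Set.Ioo (0 : ℝ) ((1 - ‖z0‖) / ‖v0‖) => ((X y : ℂ) + ((y : ℝ) : ℂ) * Complex.I)) ?_ hX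
  intro y y' hyy
  have h1 := congrArg Complex.im hyy
  simp only [Complex.add_im, Complex.ofReal_im, Complex.im_ofReal_mul, Complex.I_im, mul_one, zero_add] at h1
  exact Subtype.ext h1

theorem opn (L : V n →L[ℂ] V n) (b : V n) (C : Set (V n)) (hCo : IsOpen C)
    (hCb : C ⊆ ball (0 : V n) 1) (z0 : V n) (hz0 : z0 ∈ C) (hv0 : L z0 + b ≠ 0) :
    ∃ (U : Set (V n)) (a : V n), IsOpen U ∧ a ∈ U ∧ ‖a‖ = 1 ∧
      ∀ ζ ∈ U, ∃ z ∈ C, L z + b ≠ 0 ∧ ∃ s : ℂ, ζ = z + s • (L z + b) := by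
  have hz1 : ‖z0‖ < 1 := mem_ball_zero_iff.1 (hCb hz0)
  obtain ⟨s0, hs0, hs0'⟩ := ((circ_infinite z0 (L z0 + b) hz1 hv0).sdiff (bad_finite L)).nonempty
  have hinj : Function.Injective ((LinearMap.id : V n →ₗ[ℂ] V n) + s0 • (L : V n →ₗ[ℂ] V n)) := by
    rw [injective_iff_map_eq_zero]
    intro z hz
    by_contra hne
    exact hs0' ⟨z, hne, hz⟩
  let e : V n ≃L[ℂ] V n := (LinearEquiv.ofInjectiveEndo _ hinj).toContinuousLinearEquiv
  have he : ∀ z, e z = z + s0 • L z := fun z => rfl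
  have hopen : IsOpen (C ∩ {z | L z + b ≠ 0}) :=
    hCo.inter (isOpen_ne_fun (by fun_prop) continuous_const)
  have hcont : Continuous fun ζ : V n => e.symm (ζ - s0 • b) := by fun_prop
  have ha : e.symm (z0 + s0 • (L z0 + b) - s0 • b) = z0 := by
    rw [ContinuousLinearEquiv.symm_apply_eq, he, smul_add]
    abel
  refine ⟨(fun ζ : V n => e.symm (ζ - s0 • b)) ⁻¹' (C ∩ {z | L z + b ≠ 0}), z0 + s0 • (L z0 + b),
    hopen.preimage hcont, ?_, hs0, ?_⟩
  · rw [Set.mem_preimage, ha]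
    exact ⟨hz0, hv0⟩
  · intro ζ hζ
    refine ⟨e.symm (ζ - s0 • b), hζ.1, hζ.2, s0, ?_⟩
    have h1 : e (e.symm (ζ - s0 • b)) = ζ - s0 • b := e.apply_symm_apply _
    rw [he] at h1
    rw [smul_add, ← add_assoc, h1]
    abel

end Pool.Agent.H74.CD
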