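import Pool.Agent.H74.CB.Grm
import Pool.Agent.H74.CD.Ker
import Pool.Agent.H74.CD.Eqk
import Pool.Agent.H74.CD.Lin
import Pool.Agent.H74.CD.Idn
import Pool.Agent.H74.CD.Loc
import Pool.Agent.H74.CD.Opn

set_option autoImplicit false

/-! # [H74 CD Final] complex affine families of lines (assembly, helper74) -/

namespace Pool.Agent.H74.CD

open MeasureTheory Metric Pool.Agent.H74.CB

variable {n : ℕ}

/-- an exhaustion of the ball by open convex sets -/
private def Ck (L : V n →L[ℂ] V n) (b : V n) (e : ℝ) : Set (V n) := {z | ‖z‖ + e * ‖L z + b‖ < 1}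

private theorem Ck_open (L : V n →L[ℂ] V n) (b : V n) (e : ℝ) : IsOpen (Ck L b e) :=
  isOpen_lt (by fun_prop) continuous_const

private theorem Ck_convex (L : V n →L[ℂ] V n) (b : V n) (e : ℝ) (he : 0 ≤ e) :
    Convex ℝ (Ck L b e) := by
  intro x hx y hy p q hp hq hpq
  simp only [Ck, Set.mem_setOf_eq] at hx hy ⊢
  have h1 : L (p • x + q • y) + b = p • (L x + b) + q • (L y + b) := by
    have : b = p • b + q • b := by rw [← add_smul, hpq, one_smul]
    have e1 : L (p • x) = p • L x := by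
      have := L.map_smul (p : ℂ) x
      simpa using this
    have e2 : L (q • y) = q • L y := by
      have := L.map_smul (q : ℂ) y
      simpa using this
    rw [map_add, e1, e2, smul_add, smul_add]
    nth_rewrite 1 [this]
    abel
  have h2 : ‖p • x + q • y‖ ≤ p * ‖x‖ + q * ‖y‖ := by
    refine (norm_add_le _ _).trans ?_
    rw [norm_smul, norm_smul, Real.norm_eq_abs, Real.norm_eq_abs, abs_of_nonneg hp,
      abs_of_nonneg hq]
  have h3 : ‖L (p • x + q • y) + b‖ ≤ p * ‖L x + b‖ + q * ‖L y + b‖ := by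
    rw [h1]
    refine (norm_add_le _ _).trans ?_
    rw [norm_smul, norm_smul, Real.norm_eq_abs, Real.norm_eq_abs, abs_of_nonneg hp,
      abs_of_nonneg hq]
  have h4 := mul_le_mul_of_nonneg_left h3 he
  have h5 : p * (‖x‖ + e * ‖L x + b‖) + q * (‖y‖ + e * ‖L y + b‖) < 1 := by
    rcases eq_or_lt_of_le hp with hp0 | hp0
    · have hq1 : q = 1 := by linarith
      rw [← hp0, hq1]
      linarith
    · have := mul_lt_mul_of_pos_left hx hp0
      have h6 := mul_le_mul_of_nonneg_left hy.le hq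
      linarith
  nlinarith [h2, h4, h5]

private theorem Ck_ball (L : V n →L[ℂ] V n) (b : V n) (e : ℝ) (he : 0 ≤ e) (z : V n)
    (hz : z ∈ Ck L b e) (s : ℂ) (hs : ‖s‖ ≤ e) : z + s • (L z + b) ∈ ball (0 : V n) 1 := by
  rw [mem_ball_zero_iff]
  simp only [Ck, Set.mem_setOf_eq] at hz
  have h1 : ‖s • (L z + b)‖ ≤ e * ‖L z + b‖ := by
    rw [norm_smul]
    exact mul_le_mul_of_nonneg_right hs (norm_nonneg _)
  linarith [norm_add_le z (s • (L z + b))]

private theorem Ck_sub (L : V n →L[ℂ] V n) (b : V n) (e : ℝ) (he : 0 ≤ e) :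
    Ck L b e ⊆ ball (0 : V n) 1 := by
  intro z hz
  have := Ck_ball L b e he z hz 0 (by simpa using he)
  simpa using this

private theorem Ck_exh (L : V n →L[ℂ] V n) (b : V n) (z : V n) (hz : z ∈ ball (0 : V n) 1) :
    ∃ k : ℕ, z ∈ Ck L b (1 / ((k : ℝ) + 1)) := by
  rw [mem_ball_zero_iff] at hz
  obtain ⟨k, hk⟩ := exists_nat_gt (‖L z + b‖ / (1 - ‖z‖))
  refine ⟨k, ?_⟩
  simp only [Ck, Set.mem_setOf_eq]
  have h0 : 0 < 1 - ‖z‖ := by linarith
  have h1 : ‖L z + b‖ < k * (1 - ‖z‖) := by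
    rwa [div_lt_iff₀ h0] at hk
  have h2 : (0 : ℝ) < (k : ℝ) + 1 := by positivity
  have h3 : 1 / ((k : ℝ) + 1) * ‖L z + b‖ < 1 - ‖z‖ := by
    rw [one_div, inv_mul_lt_iff₀ h2]
    nlinarith [norm_nonneg (L z + b)]
  linarith

theorem final_line (hn : 2 ≤ n) (f g : V n → ℂ)
    (hf : ContinuousOn f (closedBall (0 : V n) 1)) (hf' : DifferentiableOn ℂ f (ball (0 : V n) 1))
    (hg : ContinuousOn g (closedBall (0 : V n) 1)) (hg' : DifferentiableOn ℂ g (ball (0 : V n) 1))
    (L : V n →L[ℂ] V n) (b : V n)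
    (hpos : (volume : Measure (V n)) {z | z ∈ ball (0 : V n) 1 ∧ L z + b ≠ 0 ∧
      Good f g z (L z + b)} ≠ 0) :
    ∃ c : ℂ, ∀ z ∈ closedBall (0 : V n) 1, f z = c * g z := by
  let S : ℕ → ℕ → Set (V n) := fun k M => {z | z ∈ Ck L b (1 / ((k : ℝ) + 1)) ∧ L z + b ≠ 0 ∧
    ∃ x : Fin (2 * M + 1) × Fin 2 → ℝ, x ≠ 0 ∧
      ∀ s : closedBall (0 : ℂ) (1 / ((k : ℝ) + 1)),
        ∑ α, (x α : ℂ) * cf M f g z (L z + b) s α = 0}
  have hex : ∃ k M, (volume : Measure (V n)) (S k M) ≠ 0 := by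
    by_contra hcon
    push Not at hcon
    apply hpos
    have hU : (volume : Measure (V n)) (⋃ k, ⋃ M, S k M) = 0 :=
      measure_iUnion_null fun k => measure_iUnion_null fun M => hcon k M
    refine measure_mono_null ?_ hU
    rintro z ⟨hz, hv, hgood⟩
    obtain ⟨k, hk⟩ := Ck_exh L b z hz
    obtain ⟨M, x, hx0, hx⟩ := ker_of_good f g hf hf' hg hg' z (L z + b) hz hv hgood
    have he : (0 : ℝ) ≤ 1 / ((k : ℝ) + 1) := by positivity
    refine Set.mem_iUnion.2 ⟨k, Set.mem_iUnion.2 ⟨M, hk, hv, x, hx0, fun s => ?_⟩⟩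
    exact hx s (ball_subset_closedBall
      (Ck_ball L b _ he z hk s (mem_closedBall_zero_iff.1 s.2)))
  obtain ⟨k, M, hkM⟩ := hex
  set e : ℝ := 1 / ((k : ℝ) + 1) with he_def
  have he : 0 < e := by positivity
  have key : ∀ K : Finset (closedBall (0 : ℂ) e), ∀ z ∈ Ck L b e,
      (gr (fun (s : closedBall (0 : ℂ) e) α => cf M f g z (L z + b) s α) K).det = 0 := by
    intro K
    refine ident (by omega) (Ck L b e) (Ck_open L b e) (Ck_convex L b e he.le)
      (fun z => (gr (fun (s : closedBall (0 : ℂ) e) α => cf M f g z (L z + b) s α) K).det)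
      (gr_cont (fun z (s : closedBall (0 : ℂ) e) α => cf M f g z (L z + b) s α) K _
        (fun s _ α => cf_cont L b M f g hf hg s α (Ck L b e)
          (fun z hz => Ck_ball L b e he.le z hz s (mem_closedBall_zero_iff.1 s.2))))
      (fun a h t ht => gr_ana
        (fun τ (s : closedBall (0 : ℂ) e) α => cf M f g (a + τ • h) (L (a + τ • h) + b) s α) K t
        (fun s _ α => cf_ana L b M f g hf' hg' s α a h t
          (Ck_ball L b e he.le _ ht s (mem_closedBall_zero_iff.1 s.2)))) ?_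
    intro h0
    refine hkM (measure_mono_null ?_ h0)
    rintro z ⟨hz, _, hx⟩
    exact ⟨hz, (gr_det (fun (s : closedBall (0 : ℂ) e) α => cf M f g z (L z + b) s α)).1 hx K⟩
  have hne : (S k M).Nonempty := by
    by_contra hcon
    rw [Set.not_nonempty_iff_eq_empty] at hcon
    rw [hcon] at hkM
    exact hkM measure_empty
  obtain ⟨z0, hz0, hv0, -⟩ := hne
  obtain ⟨U, a, hU, haU, ha, hcov⟩ := opn L b (Ck L b e) (Ck_open L b e) (Ck_sub L b e he.le) z0
    hz0 hv0
  refine cap_loc hn hf hf' hg hg' U hU a haU ha fun ζ hζU hζ => ?_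
  obtain ⟨z, hz, hv, s, hs⟩ := hcov ζ hζU
  have hker := (gr_det (fun (s : closedBall (0 : ℂ) e) α => cf M f g z (L z + b) s α)).2
    (fun K => key K z hz)
  rw [hs]
  exact eq_of_ker M f g hf hf' hg hg' z (L z + b) (Ck_sub L b e he.le hz) hv e he hker s
    (by rw [← hs]; exact hζ)

end Pool.Agent.H74.CD
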