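import Pool.Agent.H74.CC.Mes
import Pool.Agent.H74.CD.Defs

set_option autoImplicit false

/-!
# [H74 CD Fub] Fubini for the good lines

The set is measurable (`line_meas` of `H74/CC/Mes.lean`, statement only), so if it is not null for the product measure, some section `{z | (z, v) ∈ set}` is not null.
-/

namespace Pool.Agent.H74.CD

open MeasureTheory Metric Pool.Agent.H74.CB

variable {n : ℕ}

theorem fub (f g : V n → ℂ) (hf : ContinuousOn f (closedBall (0 : V n) 1))
    (hg : ContinuousOn g (closedBall (0 : V n) 1))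
    (hpos : (volume : Measure (V n × V n)) {p | p.1 ∈ ball (0 : V n) 1 ∧ p.2 ≠ 0 ∧
      Good f g p.1 p.2} ≠ 0) :
    ∃ v : V n, v ≠ 0 ∧ (volume : Measure (V n)) {z | z ∈ ball (0 : V n) 1 ∧ Good f g z v} ≠ 0 := by
  by_contra hcon
  push Not at hcon
  apply hpos
  have hm : MeasurableSet {p : V n × V n | p.1 ∈ ball (0 : V n) 1 ∧ p.2 ≠ 0 ∧
      Good f g p.1 p.2} := Pool.Agent.H74.CC.line_meas f g hf hg
  have hsw : MeasurePreserving (Prod.swap : V n × V n → V n × V n)
      ((volume : Measure (V n)).prod (volume : Measure (V n)))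
      ((volume : Measure (V n)).prod (volume : Measure (V n))) := Measure.measurePreserving_swap
  have h1 := hsw.measure_preimage hm.nullMeasurableSet
  rw [Measure.volume_eq_prod, ← h1]
  refine (Measure.measure_prod_null (hm.preimage measurable_swap)).2 ?_
  refine Filter.Eventually.of_forall fun v => ?_
  simp only [Pi.zero_apply]
  by_cases hv : v = 0
  · have : Prod.mk v ⁻¹' (Prod.swap ⁻¹' {p : V n × V n | p.1 ∈ ball (0 : V n) 1 ∧ p.2 ≠ 0 ∧
        Good f g p.1 p.2}) = ∅ := by
      ext z
      simp only [Set.mem_preimage, Set.mem_empty_iff_false, iff_false]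
      rintro ⟨_, h2, _⟩
      exact h2 hv
    rw [this, measure_empty]
  · refine measure_mono_null ?_ (hcon v hv)
    rintro z ⟨h1, _, h3⟩
    exact ⟨h1, h3⟩

end Pool.Agent.H74.CD
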