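import Pool.Agent.H74.CC.Mes
import Pool.Agent.H81.CC.Cone
import Pool.Agent.H74.CD.Final
import Pool.Agent.H74.CD.Fub

set_option autoImplicit false

/-! # [H74 CD Main] the three parts (helper74) -/

namespace Pool.Agent.H74.CD

open MeasureTheory Metric Pool.Agent.H74.CB Pool.Agent.H74.CC

variable {n : ℕ}

theorem part1 (hn : 2 ≤ n) (f g : V n → ℂ)
    (hf : ContinuousOn f (closedBall (0 : V n) 1)) (hf' : DifferentiableOn ℂ f (ball (0 : V n) 1))
    (hg : ContinuousOn g (closedBall (0 : V n) 1)) (hg' : DifferentiableOn ℂ g (ball (0 : V n) 1))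
    (K : Submodule ℂ (V n)) (hK : K ≠ ⊥) (E : Set (sphere (0 : V n) 1))
    (hE : (volume : Measure (V n)).toSphere E ≠ 0)
    (h : ∀ ζ ∈ E, ∀ p ∈ K, ∀ q ∈ Kᗮ, (ζ : V n) = p + q → ∀ t : ℂ, ‖t‖ = 1 →
      ‖f (t • p + q)‖ = ‖g (t • p + q)‖ ∧ f (t • p + q) ≠ 0) :
    ∃ c : ℂ, ∀ z ∈ closedBall (0 : V n) 1, f z = c * g z := by
  obtain ⟨P, hP, hPK, hPq⟩ := exists_isPr K hK
  have hpos : (volume : Measure (V n)).toSphere {ζ : sphere (0 : V n) 1 | ∀ t : ℂ, ‖t‖ = 1 →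
      ‖f (rho P t (ζ : V n))‖ = ‖g (rho P t (ζ : V n))‖ ∧ f (rho P t (ζ : V n)) ≠ 0} ≠ 0 := by
    intro h0
    refine hE (measure_mono_null ?_ h0)
    intro ζ hζ t ht
    exact h ζ hζ (P ζ) (hPK ζ) (ζ - P ζ) (hPq ζ) (by abel) t ht
  obtain ⟨_, hM⟩ := Pool.Agent.H81.CC.cone_union hP _ (eset_meas hP f g hf hg) hpos
    (fun _ => {z | z ∈ ball (0 : V n) 1 ∧ P z + 0 ≠ 0 ∧ Good f g z (P z + 0)}) (by
      intro ζ hζ h0 t ht0 ht1
      have hz : ‖(ζ : V n)‖ = 1 := mem_sphere_zero_iff_norm.1 ζ.2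
      have htn : ‖(t : ℂ)‖ = t := by rw [Complex.norm_real, Real.norm_eq_abs, abs_of_pos ht0]
      refine ⟨0, rho_lt hP _ (by rw [htn]; exact ht1) _ hz h0, ?_, ?_⟩
      · rw [add_zero, P_rho hP]
        exact smul_ne_zero (by exact_mod_cast ht0.ne') h0
      · intro s hs
        have e1 : rho P (t : ℂ) (ζ : V n) + s • (P (rho P (t : ℂ) (ζ : V n)) + 0) =
            rho P ((1 + s) * (t : ℂ)) (ζ : V n) := by
          have e0 : ∀ w : V n, w + s • P w = rho P (1 + s) w := by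
            intro w
            unfold rho
            rw [add_smul, one_smul]
            abel
          rw [add_zero, e0, rho_rho hP]
        rw [e1] at hs ⊢
        refine hζ _ ?_
        have h1 := norm_rho_sq hP ((1 + s) * (t : ℂ)) (ζ : V n)
        have h2 := norm_sq hP (ζ : V n)
        rw [hs] at h1
        rw [hz] at h2
        have h3 : 0 < ‖P (ζ : V n)‖ ^ 2 := by
          have := norm_pos_iff.2 h0
          positivity
        have h4 : ‖(1 + s) * (t : ℂ)‖ ^ 2 * ‖P (ζ : V n)‖ ^ 2 = 1 * ‖P (ζ : V n)‖ ^ 2 := by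
          linarith
        have h5 := mul_right_cancel₀ h3.ne' h4
        nlinarith [norm_nonneg ((1 + s) * (t : ℂ))])
  exact final_line hn f g hf hf' hg hg' P 0 hM

theorem part3 (hn : 2 ≤ n) (f g : V n → ℂ)
    (hf : ContinuousOn f (closedBall (0 : V n) 1)) (hf' : DifferentiableOn ℂ f (ball (0 : V n) 1))
    (hg : ContinuousOn g (closedBall (0 : V n) 1)) (hg' : DifferentiableOn ℂ g (ball (0 : V n) 1))
    (hpos : (volume : Measure (V n × V n)) {p | p.1 ∈ ball (0 : V n) 1 ∧ p.2 ≠ 0 ∧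
      Good f g p.1 p.2} ≠ 0) :
    ∃ c : ℂ, ∀ z ∈ closedBall (0 : V n) 1, f z = c * g z := by
  obtain ⟨v, hv, hvpos⟩ := fub f g hf hg hpos
  refine final_line hn f g hf hf' hg hg' 0 v fun h0 => hvpos (measure_mono_null ?_ h0)
  rintro z ⟨hz, hgood⟩
  have e : (0 : V n →L[ℂ] V n) z + v = v := by simp
  exact ⟨hz, by rw [e]; exact hv, by rw [e]; exact hgood⟩

end Pool.Agent.H74.CD
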